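import Pool.Agent.K1H38.RT.Tau

/-! # The ideals of `L(√-3)` above an inert prime of `L` -/

set_option autoImplicit false
set_option linter.unusedSectionVars false
set_option linter.style.haveILetI false

namespace Pool.Agent.K1H38.RT

open NumberField Polynomial

variable {L K : Type} [Field L] [NumberField L] [Field K] [NumberField K] [Algebra L K]

/-- the automorphism of the ring of integers -/
noncomputable def TO (τ : K ≃ₐ[L] K) : 𝓞 K ≃+* 𝓞 K := RingOfIntegers.mapRingEquiv (τ : K ≃+* K)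

theorem TO_coe (τ : K ≃ₐ[L] K) (x : 𝓞 K) : ((TO τ x : 𝓞 K) : K) = τ (x : K) := rfl

theorem TO_alg (τ : K ≃ₐ[L] K) (z : 𝓞 L) : TO τ (algebraMap (𝓞 L) (𝓞 K) z) = algebraMap (𝓞 L) (𝓞 K) z := by
  refine RingOfIntegers.ext ?_
  rw [TO_coe]
  change τ (algebraMap L K (z : L)) = algebraMap L K (z : L)
  exact τ.commutes _

theorem TO_TO (τ : K ≃ₐ[L] K) (h : ∀ x, τ (τ x) = x) (x : 𝓞 K) : TO τ (TO τ x) = x := by
  refine RingOfIntegers.ext ?_
  rw [TO_coe, TO_coe, h]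

/-- the ideal `(p, x - z)` -/
noncomputable def PI {R : Type} [CommRing R] (p : ℕ) (x z : R) : Ideal R := Ideal.span {(p : R), x - z}

section ring

variable {R : Type} [CommRing R]

theorem p_mem (p : ℕ) (x z : R) : (p : R) ∈ PI p x z := Ideal.subset_span (by simp)

theorem xz_mem (p : ℕ) (x z : R) : x - z ∈ PI p x z := Ideal.subset_span (by simp)

theorem bez {p : ℕ} (h3 : p % 3 = 2) : (2 : R) * p - 3 * (2 * ((p / 3 : ℕ) : R) + 1) = 1 := by
  have h : p = 3 * (p / 3) + 2 := by omega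
  have h' : ((p : ℕ) : R) = 3 * ((p / 3 : ℕ) : R) + 2 := by
    conv_lhs => rw [h]
    push_cast
    ring
  rw [h']
  ring

theorem prod_eq {p : ℕ} (h3 : p % 3 = 2) {x z c : R} (hx : x ^ 2 + x + 1 = 0) (hz : z ^ 2 + z + 1 = p * c) :
    PI p x z * PI p (-1 - x) z = Ideal.span {(p : R)} := by
  apply le_antisymm
  · unfold PI
    rw [Ideal.span_mul_span', Ideal.span_le]
    rintro y hy
    obtain ⟨a, ha, b, hb, rfl⟩ := hy
    simp only [Set.mem_insert_iff, Set.mem_singleton_iff] at ha hb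
    rw [SetLike.mem_coe, Ideal.mem_span_singleton']
    rcases ha with rfl | rfl <;> rcases hb with rfl | rfl
    · exact ⟨p, rfl⟩
    · exact ⟨-1 - x - z, by ring⟩
    · exact ⟨x - z, by ring⟩
    · exact ⟨c, by linear_combination hx - hz⟩
  · rw [Ideal.span_le, Set.singleton_subset_iff, SetLike.mem_coe]
    have h1 : (p : R) * p ∈ PI p x z * PI p (-1 - x) z := Ideal.mul_mem_mul (p_mem _ _ _) (p_mem _ _ _)
    have h2 : (p : R) * (-1 - x - z) ∈ PI p x z * PI p (-1 - x) z :=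
      Ideal.mul_mem_mul (p_mem _ _ _) (xz_mem _ _ _)
    have h4 : (x - z) * (p : R) ∈ PI p x z * PI p (-1 - x) z :=
      Ideal.mul_mem_mul (xz_mem _ _ _) (p_mem _ _ _)
    have hb := bez (R := R) h3
    have h5 : (p : R) = (2 - (2 * ((p / 3 : ℕ) : R) + 1) * 4 * c) * (p * p) +
        ((2 * ((p / 3 : ℕ) : R) + 1) * (-1 - 2 * z)) * (p * (-1 - x - z)) +
        ((2 * ((p / 3 : ℕ) : R) + 1) * (-1 - 2 * z)) * ((x - z) * p) := by
      linear_combination (-(p : R)) * hb - 4 * (p : R) * (2 * ((p / 3 : ℕ) : R) + 1) * hz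
    rw [h5]
    exact Ideal.add_mem _ (Ideal.add_mem _ (Ideal.mul_mem_left _ _ h1) (Ideal.mul_mem_left _ _ h2))
      (Ideal.mul_mem_left _ _ h4)

theorem coprime_conj {p : ℕ} (h3 : p % 3 = 2) {x z : R} (hx : x ^ 2 + x + 1 = 0) :
    IsCoprime (PI p x z) (PI p (-1 - x) z) := by
  rw [Ideal.isCoprime_iff_exists]
  have hb := bez (R := R) h3
  refine ⟨2 * p + (2 * ((p / 3 : ℕ) : R) + 1) * (2 * x + 1) * (x - z), ?_,
    -((2 * ((p / 3 : ℕ) : R) + 1) * (2 * x + 1)) * (-1 - x - z), ?_, ?_⟩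
  · exact Ideal.add_mem _ (Ideal.mul_mem_left _ _ (p_mem _ _ _)) (Ideal.mul_mem_left _ _ (xz_mem _ _ _))
  · exact Ideal.mul_mem_left _ _ (xz_mem _ _ _)
  · linear_combination hb + (2 * ((p / 3 : ℕ) : R) + 1) * 4 * hx

theorem coprime_pq {p q : ℕ} (hp : p.Prime) (hq : q.Prime) (hpq : p ≠ q) (x z x' z' : R) :
    IsCoprime (PI p x z) (PI q x' z') := by
  rw [Ideal.isCoprime_iff_exists]
  have h1 : IsCoprime (p : ℤ) (q : ℤ) := Nat.isCoprime_iff_coprime.2 ((Nat.coprime_primes hp hq).2 hpq)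
  obtain ⟨a, b, hab⟩ := h1
  have hab' : ((a : ℤ) : R) * (p : R) + ((b : ℤ) : R) * (q : R) = 1 := by
    have := congrArg (fun t : ℤ => (t : R)) hab
    push_cast at this
    exact this
  exact ⟨_, Ideal.mul_mem_left _ _ (p_mem _ _ _), _, Ideal.mul_mem_left _ _ (p_mem _ _ _), hab'⟩

end ring

theorem map_PI (τ : K ≃ₐ[L] K) (p : ℕ) (x : 𝓞 K) (z : 𝓞 L) (hx : TO τ x = -1 - x) :
    Ideal.map (TO τ) (PI p x (algebraMap (𝓞 L) (𝓞 K) z)) = PI p (-1 - x) (algebraMap (𝓞 L) (𝓞 K) z) := by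
  unfold PI
  rw [Ideal.map_span]
  congr 1
  rw [Set.image_pair, map_sub, hx, TO_alg, map_natCast]

theorem absNorm_map_equiv (T : 𝓞 K ≃+* 𝓞 K) (I : Ideal (𝓞 K)) :
    Ideal.absNorm (Ideal.map T I) = Ideal.absNorm I := by
  rw [Ideal.absNorm_apply, Ideal.absNorm_apply, Submodule.cardQuot_apply, Submodule.cardQuot_apply]
  exact (Nat.card_congr (Ideal.quotientEquiv I (Ideal.map T I) T rfl).toEquiv).symm

theorem absNorm_p (F : Type) [Field F] [NumberField F] (p : ℕ) :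
    Ideal.absNorm (Ideal.span {((p : ℕ) : 𝓞 F)}) = p ^ (Module.finrank ℚ F) := by
  rw [Ideal.absNorm_span_singleton, show ((p : ℕ) : 𝓞 F) = algebraMap ℤ (𝓞 F) p by simp,
    Algebra.norm_algebraMap, RingOfIntegers.rank, Int.natAbs_pow, Int.natAbs_natCast]

theorem absNorm_PI (h2 : Module.finrank L K = 2) (τ : K ≃ₐ[L] K) {p : ℕ} (h3 : p % 3 = 2) {x : 𝓞 K}
    {z c : 𝓞 L} (hx : x ^ 2 + x + 1 = 0) (hτ : TO τ x = -1 - x) (hz : z ^ 2 + z + 1 = p * c) :
    Ideal.absNorm (PI p x (algebraMap (𝓞 L) (𝓞 K) z)) = p ^ (Module.finrank ℚ L) := by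
  have hz' : (algebraMap (𝓞 L) (𝓞 K) z) ^ 2 + algebraMap (𝓞 L) (𝓞 K) z + 1 =
      p * algebraMap (𝓞 L) (𝓞 K) c := by
    have := congrArg (algebraMap (𝓞 L) (𝓞 K)) hz
    rw [map_add, map_add, map_pow, map_one, map_mul, map_natCast] at this
    exact this
  have h4 := prod_eq h3 hx hz'
  rw [← map_PI τ p x z hτ] at h4
  have h5 := congrArg Ideal.absNorm h4
  rw [map_mul, absNorm_map_equiv, absNorm_p, ← Module.finrank_mul_finrank ℚ L K, h2, pow_mul, ← sq] at h5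
  exact Nat.pow_left_injective (by norm_num : (2 : ℕ) ≠ 0) h5

end Pool.Agent.K1H38.RT
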