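import Mathlib

/-! # The norm form `U² - U V + V²` and the primes congruent to `2` modulo `3` -/

set_option autoImplicit false

namespace Pool.Agent.K1H38.RT

theorem nf_zmod {p : ℕ} (hp : p.Prime) (h3 : p % 3 = 2) (u v : ZMod p) (h : u ^ 2 - u * v + v ^ 2 = 0) :
    u = 0 ∧ v = 0 := by
  haveI : Fact p.Prime := ⟨hp⟩
  have hp3 : (3 : ZMod p) ≠ 0 := by
    intro h0
    have h1 : ((3 : ℕ) : ZMod p) = 0 := by exact_mod_cast h0
    rw [ZMod.natCast_eq_zero_iff] at h1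
    have := (Nat.prime_dvd_prime_iff_eq hp Nat.prime_three).1 h1
    omega
  by_cases hv : v = 0
  · subst hv
    refine ⟨?_, rfl⟩
    have : u ^ 2 = 0 := by linear_combination h
    exact pow_eq_zero_iff (two_ne_zero) |>.1 this
  exfalso
  obtain ⟨r, hr⟩ : ∃ r : ZMod p, r = -(u / v) := ⟨_, rfl⟩
  have hu : u = -(r * v) := by
    rw [hr]
    field_simp
  have h1 : (r ^ 2 + r + 1) * v ^ 2 = 0 := by
    rw [hu] at h
    linear_combination h
  have h2 : r ^ 2 + r + 1 = 0 := by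
    rcases mul_eq_zero.1 h1 with h2 | h2
    · exact h2
    · exact absurd (pow_eq_zero_iff (two_ne_zero) |>.1 h2) hv
  have h4 : r ^ 3 = 1 := by linear_combination (r - 1) * h2
  have hr0 : r ≠ 0 := by
    rintro rfl
    norm_num at h4
  have h5 : r ^ (p - 1) = 1 := ZMod.pow_card_sub_one_eq_one hr0
  obtain ⟨k, hk⟩ : ∃ k, p - 1 = 3 * k + 1 := ⟨(p - 2) / 3, by have := hp.two_le; omega⟩
  rw [hk, pow_succ, pow_mul, h4, one_pow, one_mul] at h5
  rw [h5] at h2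
  apply hp3
  linear_combination h2

theorem nf_dvd {p : ℕ} (hp : p.Prime) (h3 : p % 3 = 2) (u v : ℤ) (h : (p : ℤ) ∣ u ^ 2 - u * v + v ^ 2) :
    (p : ℤ) ∣ u ∧ (p : ℤ) ∣ v := by
  have h1 : ((u : ZMod p)) ^ 2 - (u : ZMod p) * (v : ZMod p) + (v : ZMod p) ^ 2 = 0 := by
    have := (ZMod.intCast_zmod_eq_zero_iff_dvd (u ^ 2 - u * v + v ^ 2) p).2 h
    push_cast at this
    exact this
  have h2 := nf_zmod hp h3 _ _ h1
  exact ⟨(ZMod.intCast_zmod_eq_zero_iff_dvd u p).1 h2.1, (ZMod.intCast_zmod_eq_zero_iff_dvd v p).1 h2.2⟩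

theorem descent {p q : ℕ} (hp : p.Prime) (hq : q.Prime) (hpq : p ≠ q) (h3 : p % 3 = 2) :
    ∀ (m : ℕ) (u v w : ℤ), w.natAbs = m → w ≠ 0 → (q : ℤ) ^ 3 * (u ^ 2 - u * v + v ^ 2) = p * w ^ 2 → False := by
  intro m
  induction m using Nat.strong_induction_on with
  | _ m ih =>
    intro u v w hm hw h
    have hp0 : (p : ℤ) ≠ 0 := by exact_mod_cast hp.ne_zero
    have hpp : Prime (p : ℤ) := Nat.prime_iff_prime_int.1 hp
    have h1 : (p : ℤ) ∣ (q : ℤ) ^ 3 * (u ^ 2 - u * v + v ^ 2) := ⟨w ^ 2, h⟩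
    have h2 : (p : ℤ) ∣ u ^ 2 - u * v + v ^ 2 := by
      rcases hpp.dvd_or_dvd h1 with h2 | h2
      · exfalso
        have h4 := hpp.dvd_of_dvd_pow h2
        have h5 : p ∣ q := by exact_mod_cast h4
        exact hpq ((Nat.prime_dvd_prime_iff_eq hp hq).1 h5)
      · exact h2
    obtain ⟨⟨u', rfl⟩, ⟨v', rfl⟩⟩ := nf_dvd hp h3 u v h2
    have h4 : (q : ℤ) ^ 3 * (p * (u' ^ 2 - u' * v' + v' ^ 2)) = w ^ 2 := by
      apply mul_left_cancel₀ hp0
      linear_combination h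
    have h5 : (p : ℤ) ∣ w := by
      apply hpp.dvd_of_dvd_pow (n := 2)
      rw [← h4]
      exact ⟨(q : ℤ) ^ 3 * (u' ^ 2 - u' * v' + v' ^ 2), by ring⟩
    obtain ⟨w', rfl⟩ := h5
    have hw' : w' ≠ 0 := by
      rintro rfl
      simp at hw
    have h6 : (q : ℤ) ^ 3 * (u' ^ 2 - u' * v' + v' ^ 2) = p * w' ^ 2 := by
      apply mul_left_cancel₀ hp0
      linear_combination h4
    refine ih w'.natAbs ?_ u' v' w' rfl hw' h6
    rw [← hm, Int.natAbs_mul, Int.natAbs_natCast]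
    have h7 : 0 < w'.natAbs := Int.natAbs_pos.2 hw'
    have h8 := hp.two_le
    nlinarith

/-- `(p/q)³` is not of the form `u² - u v + v²` -/
theorem nf_rat {p q : ℕ} (hp : p.Prime) (hq : q.Prime) (hpq : p ≠ q) (h3 : p % 3 = 2) (u v : ℚ)
    (h : (u ^ 2 - u * v + v ^ 2) * (q : ℚ) ^ 3 = (p : ℚ) ^ 3) : False := by
  have hu : u = u.num / u.den := (Rat.num_div_den u).symm
  have hv : v = v.num / v.den := (Rat.num_div_den v).symm
  have hud : (u.den : ℚ) ≠ 0 := by exact_mod_cast u.den_nz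
  have hvd : (v.den : ℚ) ≠ 0 := by exact_mod_cast v.den_nz
  have h1 : (q : ℚ) ^ 3 * ((u.num * v.den) ^ 2 - (u.num * v.den) * (v.num * u.den) + (v.num * u.den) ^ 2) =
      p * (p * (u.den * v.den)) ^ 2 := by
    have h2 : (u.num : ℚ) = u * u.den := by
      rw [eq_comm, Rat.mul_den_eq_num]
    have h4 : (v.num : ℚ) = v * v.den := by
      rw [eq_comm, Rat.mul_den_eq_num]
    rw [h2, h4]
    linear_combination (u.den : ℚ) ^ 2 * (v.den : ℚ) ^ 2 * h
  have h2 : (q : ℤ) ^ 3 * ((u.num * v.den) ^ 2 - (u.num * v.den) * (v.num * u.den) + (v.num * u.den) ^ 2) =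
      p * (p * (u.den * v.den)) ^ 2 := by exact_mod_cast h1
  refine descent hp hq hpq h3 _ _ _ _ rfl ?_ h2
  refine mul_ne_zero (by exact_mod_cast hp.ne_zero) (mul_ne_zero ?_ ?_)
  · exact_mod_cast u.den_nz
  · exact_mod_cast v.den_nz

end Pool.Agent.K1H38.RT
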