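import Pool.Agent.K1H38.RT.Loc
import Pool.Agent.K1H38.RT.Nf
import Pool.Agent.K1H79.QR.DiscR

/-! # The three cases of the separation argument -/

set_option autoImplicit false
set_option linter.unusedSectionVars false
set_option linter.style.haveILetI false

namespace Pool.Agent.K1H38.RT

open NumberField Polynomial IntermediateField Pool.Agent.K1H79.QR
open scoped Classical nonZeroDivisors

variable {L K : Type} [Field L] [NumberField L] [Field K] [NumberField K] [Algebra L K]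

theorem rat_of_quad {n : ℕ} (hn : Module.finrank ℚ L = n) (hn3 : 3 ≤ n)
    (hns : ∀ E : IntermediateField ℚ L, E = ⊥ ∨ E = ⊤) (x : L) (b c : ℚ)
    (h : x ^ 2 + (b : L) * x + (c : L) = 0) : ∃ q : ℚ, x = (q : L) := by
  rcases hns ℚ⟮x⟯ with h1 | h1
  · have h2 : x ∈ ℚ⟮x⟯ := mem_adjoin_simple_self ℚ x
    rw [h1, mem_bot] at h2
    obtain ⟨q, hq⟩ := h2
    exact ⟨q, by rw [← hq, eq_ratCast]⟩
  · exfalso
    have hint : IsIntegral ℚ x := Algebra.IsIntegral.isIntegral _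
    have h2 := IntermediateField.adjoin.finrank hint
    rw [h1, IntermediateField.finrank_top', hn] at h2
    have h3 : (X ^ 2 + C b * X + C c : ℚ[X]).Monic := by monicity!
    have h4 := minpoly.min ℚ x h3 (by simpa using h)
    have h5 : (X ^ 2 + C b * X + C c : ℚ[X]).degree = 2 := by compute_degree!
    have h6 : (minpoly ℚ x).natDegree ≤ 2 := by
      rw [h5] at h4
      exact natDegree_le_iff_degree_le.2 h4
    omega

theorem no_root {n : ℕ} (hn : Module.finrank ℚ L = n) (hn3 : 3 ≤ n)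
    (hns : ∀ E : IntermediateField ℚ L, E = ⊥ ∨ E = ⊤) (z : L) : z ^ 2 + z + 1 ≠ 0 := by
  intro h
  obtain ⟨q, rfl⟩ := rat_of_quad hn hn3 hns z 1 1 (by push_cast; linear_combination h)
  have h1 : ((q ^ 2 + q + 1 : ℚ) : L) = 0 := by push_cast; exact h
  have h2 : q ^ 2 + q + 1 = 0 := by exact_mod_cast h1
  nlinarith [sq_nonneg (2 * q + 1)]

theorem gen_rat (hns : ∀ E : IntermediateField ℚ L, E = ⊥ ∨ E = ⊤) {α : L}
    (h : ∀ q : ℚ, α ≠ (q : L)) : ℚ⟮α⟯ = ⊤ := by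
  rcases hns ℚ⟮α⟯ with h1 | h1
  · exfalso
    have h2 : α ∈ ℚ⟮α⟯ := mem_adjoin_simple_self ℚ α
    rw [h1, mem_bot] at h2
    obtain ⟨q, hq⟩ := h2
    exact h q (by rw [← hq, eq_ratCast])
  · exact h1

theorem gen_K (h2 : Module.finrank L K = 2) {a : K} (ha : ∀ z : L, algebraMap L K z ≠ a) {t : L}
    (ht : ℚ⟮t⟯ = ⊤) (hta : algebraMap L K t ∈ ℚ⟮a⟯) : ℚ⟮a⟯ = ⊤ := by
  have h3 : ∀ z : L, algebraMap L K z ∈ ℚ⟮a⟯ := by
    intro z
    have h4 : ℚ⟮t⟯ ≤ (ℚ⟮a⟯).comap (IsScalarTower.toAlgHom ℚ L K) := by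
      rw [adjoin_simple_le_iff]
      exact hta
    rw [ht] at h4
    exact h4 (mem_top (x := z))
  rw [eq_top_iff]
  intro k _
  have h5 : k ∈ Algebra.adjoin L {a} := by
    rw [adjoin_top h2 ha]
    exact Algebra.mem_top
  induction h5 using Algebra.adjoin_induction with
  | mem x hx =>
    rw [Set.mem_singleton_iff] at hx
    rw [hx]
    exact mem_adjoin_simple_self ℚ a
  | algebraMap r => exact h3 r
  | add x y _ _ hx hy => exact add_mem (hx mem_top) (hy mem_top)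
  | mul x y _ _ hx hy => exact mul_mem (hx mem_top) (hy mem_top)

/-- the case `a τ(a)` not rational -/
theorem case1 {n : ℕ} (hn : Module.finrank ℚ L = n) (ν : L) (hν : ℚ⟮ν⟯ = ⊤) {B : ℝ}
    (hw : ∀ w : InfinitePlace K, w (algebraMap L K ν) ≤ B) {q : ℕ} (hq : q ≠ 0)
    (hint : ∃ c : 𝓞 K, algebraMap L K ν * ((q : ℕ) : K) ^ 3 = (c : K)) :
    |(discr L : ℝ)| ≤ (2 * B) ^ (n * (n - 1)) * (((q : ℝ) ^ n) ^ 3) ^ (2 * (n - 1)) := by
  have hq0 : ((q : ℕ) : 𝓞 L) ≠ 0 := by exact_mod_cast hq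
  have hmem : Ideal.span {((q : ℕ) : 𝓞 L)} ^ 3 ∈ (Ideal (𝓞 L))⁰ := by
    rw [mem_nonZeroDivisors_iff_ne_zero]
    apply pow_ne_zero
    rw [Ne, Ideal.zero_eq_bot, Ideal.span_singleton_eq_bot]
    exact hq0
  obtain ⟨c, hc⟩ := hint
  have hI : IsIntegral ℤ (ν * ((q : ℕ) : L) ^ 3) := by
    have h1 : IsIntegral ℤ (algebraMap L K (ν * ((q : ℕ) : L) ^ 3)) := by
      rw [map_mul, map_pow, map_natCast, hc]
      exact RingOfIntegers.isIntegral_coe c
    exact (isIntegral_algebraMap_iff (algebraMap L K).injective).1 h1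
  obtain ⟨d, hd⟩ : ∃ d : 𝓞 L, (d : L) = ν * ((q : ℕ) : L) ^ 3 := ⟨⟨_, hI⟩, rfl⟩
  have h := disc_bound_frac hn ν hν (B := B) (by
    intro v
    obtain ⟨w, hw'⟩ := InfinitePlace.comap_surjective (K := K) v
    have hw2 : w.comap (algebraMap L K) = v := hw'
    have := hw w
    rw [← InfinitePlace.comap_apply, hw2] at this
    exact this) ⟨_, hmem⟩ (by
    intro b hb
    simp only [Ideal.span_singleton_pow] at hb
    obtain ⟨e, rfl⟩ := Ideal.mem_span_singleton'.1 hb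
    refine ⟨e * d, ?_⟩
    have h1 : ((e * (((q : ℕ) : 𝓞 L)) ^ 3 : 𝓞 L) : L) = (e : L) * ((q : ℕ) : L) ^ 3 := by
      rw [RingOfIntegers.coe_eq_algebraMap, map_mul, map_pow, map_natCast]
    rw [h1]
    have h2 : ((e * d : 𝓞 L) : L) = (e : L) * (d : L) := by
      rw [RingOfIntegers.coe_eq_algebraMap, map_mul]
    rw [h2, hd]
    ring)
  refine h.trans (le_of_eq ?_)
  congr 2
  simp only [map_pow, absNorm_p, hn]
  push_cast
  rfl

/-- the case `a` generates the field -/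
theorem case2 {m : ℕ} (hm : Module.finrank ℚ K = m) {x y : 𝓞 K} (hx : x ≠ 0) (P Q : (Ideal (𝓞 K))⁰)
    (hgen : ℚ⟮(y : K) / (x : K)⟯ = ⊤)
    (h : Ideal.span {x} * (P : Ideal (𝓞 K)) ^ 3 = Ideal.span {y} * (Q : Ideal (𝓞 K)) ^ 3) {B : ℝ}
    (hw : ∀ w : InfinitePlace K, w ((y : K) / (x : K)) ≤ B) :
    |(discr K : ℝ)| ≤ (2 * B) ^ (m * (m - 1)) *
      ((Ideal.absNorm (Q : Ideal (𝓞 K)) : ℝ) ^ 3) ^ (2 * (m - 1)) := by
  have hxL : (x : K) ≠ 0 := by exact_mod_cast hx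
  have h0 : ∀ c ∈ ((Q ^ 3 : (Ideal (𝓞 K))⁰) : Ideal (𝓞 K)), ∃ d : 𝓞 K, (y : K) / (x : K) * (c : K) = (d : K) := by
    intro c hc
    have hc' : c ∈ (Q : Ideal (𝓞 K)) ^ 3 := by
      rw [SubmonoidClass.coe_pow] at hc
      exact hc
    have h2 : y * c ∈ Ideal.span {y} * (Q : Ideal (𝓞 K)) ^ 3 :=
      Ideal.mul_mem_mul (Ideal.mem_span_singleton_self _) hc'
    rw [← h] at h2
    obtain ⟨d, hd⟩ := Ideal.mem_span_singleton'.1 (Ideal.mul_le_left h2)
    refine ⟨d, ?_⟩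
    rw [div_mul_eq_mul_div, div_eq_iff hxL]
    exact_mod_cast hd.symm
  have h1 := disc_bound_frac hm _ hgen hw (Q ^ 3) h0
  have h3 : ((Ideal.absNorm ((Q ^ 3 : (Ideal (𝓞 K))⁰) : Ideal (𝓞 K)) : ℕ) : ℝ) =
      (Ideal.absNorm (Q : Ideal (𝓞 K)) : ℝ) ^ 3 := by
    rw [SubmonoidClass.coe_pow, map_pow]
    push_cast
    rfl
  rw [h3] at h1
  exact h1

end Pool.Agent.K1H38.RT
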