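import Mathlib

/-! # The discriminant of a quadratic extension generated by a cube root of unity -/

set_option autoImplicit false
set_option linter.unusedSectionVars false
set_option linter.unusedSimpArgs false

namespace Pool.Agent.K1H38.RT

open NumberField Polynomial

variable {L K : Type} [Field L] [NumberField L] [Field K] [NumberField K] [Algebra L K]

theorem disc_eq (h2 : Module.finrank L K = 2) :
    (discr K).natAbs = Ideal.absNorm (differentIdeal (𝓞 L) (𝓞 K)) * (discr L).natAbs ^ 2 := by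
  have := NumberField.natAbs_discr_eq_absNorm_differentIdeal_mul_natAbs_discr_pow L (𝓞 L) K (𝓞 K)
  rw [this, h2]

theorem disc_lower (h2 : Module.finrank L K = 2) : |(discr L : ℝ)| ^ 2 ≤ |(discr K : ℝ)| := by
  have h := disc_eq (L := L) (K := K) h2
  have h0 : (discr K).natAbs ≠ 0 := Int.natAbs_ne_zero.2 (discr_ne_zero K)
  have h1 : 1 ≤ Ideal.absNorm (differentIdeal (𝓞 L) (𝓞 K)) := by
    rw [Nat.one_le_iff_ne_zero]
    intro h3
    rw [h3, zero_mul] at h
    exact h0 h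
  have h3 : (discr L).natAbs ^ 2 ≤ (discr K).natAbs := by
    rw [h]
    exact Nat.le_mul_of_pos_left _ h1
  have h4 : (((discr L).natAbs ^ 2 : ℕ) : ℝ) ≤ (((discr K).natAbs : ℕ) : ℝ) := by exact_mod_cast h3
  rw [Nat.cast_pow, Nat.cast_natAbs, Nat.cast_natAbs] at h4
  push_cast at h4
  exact h4

/-- `ω` is not in `L` -/
theorem not_mem {ω : K} (hω : ω ^ 2 + ω + 1 = 0) (hL : ∀ z : L, z ^ 2 + z + 1 ≠ 0) (z : L) :
    algebraMap L K z ≠ ω := by
  intro h
  apply hL z
  apply (algebraMap L K).injective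
  rw [map_add, map_add, map_pow, h, map_one, map_zero, hω]

theorem adjoin_top (h2 : Module.finrank L K = 2) {a : K} (ha : ∀ z : L, algebraMap L K z ≠ a) :
    Algebra.adjoin L {a} = ⊤ := by
  have hs := Subalgebra.isSimpleOrder_of_finrank_prime L K (by rw [h2]; exact Nat.prime_two)
  rcases hs.eq_bot_or_eq_top (Algebra.adjoin L {a}) with h | h
  · exfalso
    have h1 : a ∈ Algebra.adjoin L {a} := Algebra.self_mem_adjoin_singleton L a
    rw [h, Algebra.mem_bot] at h1
    obtain ⟨z, hz⟩ := h1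
    exact ha z hz
  · exact h

theorem absNorm_sqrt (x : 𝓞 K) (hx : (2 * x + 1) ^ 2 = -3) :
    Ideal.absNorm (Ideal.span {2 * x + 1}) ^ 2 = 3 ^ (Module.finrank ℚ K) := by
  rw [← map_pow, Ideal.span_singleton_pow, hx, Ideal.absNorm_span_singleton]
  have h1 : (-3 : 𝓞 K) = algebraMap ℤ (𝓞 K) (-3) := by simp
  rw [h1, Algebra.norm_algebraMap, RingOfIntegers.rank, Int.natAbs_pow]
  rfl

theorem two_mem (h2 : Module.finrank L K = 2) {x : 𝓞 K} (hx : x ^ 2 + x + 1 = 0)
    (hL : ∀ z : L, z ^ 2 + z + 1 ≠ 0) : 2 * x + 1 ∈ differentIdeal (𝓞 L) (𝓞 K) := by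
  have hω : (x : K) ^ 2 + (x : K) + 1 = 0 := by
    have := congrArg (fun z : 𝓞 K => (z : K)) hx
    push_cast at this
    exact this
  have h1 := aeval_derivative_mem_differentIdeal (𝓞 L) L K x (adjoin_top h2 (not_mem hω hL))
  have hint : IsIntegral (𝓞 L) x := Algebra.IsIntegral.isIntegral x
  have h3 : minpoly (𝓞 L) x ∣ (X ^ 2 + X + 1 : (𝓞 L)[X]) := by
    apply minpoly.isIntegrallyClosed_dvd hint
    simp [hx]
  obtain ⟨c, hc⟩ := h3
  have h4 := congrArg (fun q => aeval x (derivative q)) hc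
  simp only [derivative_mul, derivative_add, derivative_X, derivative_one, map_add, map_mul,
    minpoly.aeval, zero_mul, add_zero, derivative_X_pow, map_one, map_pow, aeval_X] at h4
  have h5 : 2 * x + 1 = aeval x (derivative (minpoly (𝓞 L) x)) * aeval x c := by
    rw [← h4]
    have h6 : algebraMap (𝓞 L) (𝓞 K) 2 = 2 := map_ofNat _ 2
    simp [h6]
  rw [h5]
  exact Ideal.mul_mem_right _ _ h1

theorem disc_upper (h2 : Module.finrank L K = 2) {ω : K} (hω : ω ^ 2 + ω + 1 = 0)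
    (hL : ∀ z : L, z ^ 2 + z + 1 ≠ 0) :
    |(discr K : ℝ)| ≤ 3 ^ (Module.finrank ℚ L) * |(discr L : ℝ)| ^ 2 := by
  have h := disc_eq (L := L) (K := K) h2
  have hint : IsIntegral ℤ ω := by
    refine ⟨X ^ 2 + X + 1, ?_, ?_⟩
    · monicity!
    · simp [hω]
  obtain ⟨x, hx⟩ : ∃ x : 𝓞 K, (x : K) = ω := ⟨⟨ω, hint⟩, rfl⟩
  have hx1 : x ^ 2 + x + 1 = 0 := by
    refine RingOfIntegers.ext ?_
    change algebraMap (𝓞 K) K (x ^ 2 + x + 1) = algebraMap (𝓞 K) K 0
    rw [map_add, map_add, map_pow, map_one, map_zero, show algebraMap (𝓞 K) K x = ω from hx, hω]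
  have h3 := two_mem h2 hx1 hL
  have h4 : Ideal.absNorm (Ideal.span {2 * x + 1}) ^ 2 = 3 ^ (Module.finrank ℚ K) :=
    absNorm_sqrt x (by linear_combination 4 * hx1)
  have h5 : Module.finrank ℚ K = 2 * Module.finrank ℚ L := by
    rw [← Module.finrank_mul_finrank ℚ L K, h2, mul_comm]
  rw [h5, mul_comm 2 (Module.finrank ℚ L), pow_mul] at h4
  have h6 : Ideal.absNorm (Ideal.span {2 * x + 1}) = 3 ^ (Module.finrank ℚ L) :=
    Nat.pow_left_injective (by norm_num : (2 : ℕ) ≠ 0) h4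
  have h7 : Ideal.absNorm (differentIdeal (𝓞 L) (𝓞 K)) ≤ 3 ^ (Module.finrank ℚ L) := by
    rw [← h6]
    refine Nat.le_of_dvd ?_ (Ideal.absNorm_dvd_absNorm_of_le ?_)
    · rw [h6]; positivity
    · rw [Ideal.span_le, Set.singleton_subset_iff]
      exact h3
  have h8 : (discr K).natAbs ≤ 3 ^ (Module.finrank ℚ L) * (discr L).natAbs ^ 2 := by
    rw [h]
    exact Nat.mul_le_mul_right _ h7
  have h9 : (((discr K).natAbs : ℕ) : ℝ) ≤ ((3 ^ (Module.finrank ℚ L) * (discr L).natAbs ^ 2 : ℕ) : ℝ) := by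
    exact_mod_cast h8
  rw [Nat.cast_mul, Nat.cast_pow, Nat.cast_pow, Nat.cast_natAbs, Nat.cast_natAbs] at h9
  push_cast at h9
  exact h9

end Pool.Agent.K1H38.RT
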