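import Pool.Agent.K1H38.RT.Sep2
import Pool.Agent.K1H79.RF.Stm
import Pool.Agent.K1H79.QR.Ev

/-! # Task T3 of helper79: `S_DISC` and `S_EVK` -/

set_option autoImplicit false
set_option linter.unusedSectionVars false
set_option linter.style.haveILetI false

namespace Pool.Agent.K1H38.RT

open NumberField Polynomial IntermediateField Pool.Agent.K1H79.QR
open scoped Classical nonZeroDivisors

theorem t_DISC : Pool.Agent.K1H79.RF.S_DISC := by
  intro L K _ _ _ _ _ h2 ω hω hL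
  exact ⟨disc_lower h2, disc_upper h2 hω hL⟩

theorem t_EVK : Pool.Agent.K1H79.RF.S_EVK := by
  intro n he hn4
  refine ⟨(2 * 150 ^ 6) ^ (2 * n * (2 * n - 1)), by positivity, ?_⟩
  intro L K _ _ _ _ _ hn hns h2 ω hω M Y hM hD N hN
  have hm : Module.finrank ℚ K = 2 * n := by
    rw [← Module.finrank_mul_finrank ℚ L K, h2, mul_comm, hn]
  have hL : ∀ z : L, z ^ 2 + z + 1 ≠ 0 := no_root hn (by omega) hns
  obtain ⟨τ, hτω, hττ, hfix⟩ := exists_tau h2 hω hL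
  have hint : IsIntegral ℤ ω := by
    refine ⟨X ^ 2 + X + 1, ?_, ?_⟩
    · monicity!
    · simp [hω]
  obtain ⟨v, hv⟩ : ∃ v : 𝓞 K, (v : K) = ω := ⟨⟨ω, hint⟩, rfl⟩
  have hv1 : v ^ 2 + v + 1 = 0 := by
    refine RingOfIntegers.ext ?_
    change algebraMap (𝓞 K) K (v ^ 2 + v + 1) = algebraMap (𝓞 K) K 0
    rw [map_add, map_add, map_pow, map_one, map_zero, show algebraMap (𝓞 K) K v = ω from hv, hω]
  have hTv : TO τ v = -1 - v := by
    refine RingOfIntegers.ext ?_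
    rw [TO_coe, hv, hτω]
    change _ = algebraMap (𝓞 K) K (-1 - v)
    rw [map_sub, map_neg, map_one, show algebraMap (𝓞 K) K v = ω from hv]
  have hex : ∀ p : {p // p ∈ M}, ∃ z c : 𝓞 L, z ^ 2 + z + 1 = ((p.1 : ℕ) : 𝓞 L) * c := by
    intro p
    obtain ⟨h1, -, h3, h4⟩ := hM p.1 p.2
    obtain ⟨z, hz⟩ := exists_z hn he h1 h3 h4
    obtain ⟨c, hc⟩ := Ideal.mem_span_singleton'.1 hz
    exact ⟨z, c, by rw [← hc, mul_comm]⟩
  choose z c hz using hex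
  have hnorm : ∀ p : {p // p ∈ M}, Ideal.absNorm (PI p.1 v (algebraMap (𝓞 L) (𝓞 K) (z p))) = p.1 ^ n := by
    intro p
    have h4 := absNorm_PI h2 τ (hM p.1 p.2).2.2.1 hv1 hTv (hz p)
    rw [h4, hn]
  have hne : ∀ p : {p // p ∈ M}, PI p.1 v (algebraMap (𝓞 L) (𝓞 K) (z p)) ∈ (Ideal (𝓞 K))⁰ := by
    intro p
    rw [mem_nonZeroDivisors_iff_ne_zero, Ne, Ideal.zero_eq_bot, ← Ideal.absNorm_eq_zero_iff, hnorm]
    exact pow_ne_zero _ (hM p.1 p.2).1.ne_zero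
  have hprod : ∀ p : {p // p ∈ M}, PI p.1 v (algebraMap (𝓞 L) (𝓞 K) (z p)) *
      Ideal.map (TO τ) (PI p.1 v (algebraMap (𝓞 L) (𝓞 K) (z p))) = Ideal.span {((p.1 : ℕ) : 𝓞 K)} := by
    intro p
    rw [map_PI τ _ _ _ hTv]
    refine prod_eq (c := algebraMap (𝓞 L) (𝓞 K) (c p)) (hM p.1 p.2).2.2.1 hv1 ?_
    have := congrArg (algebraMap (𝓞 L) (𝓞 K)) (hz p)
    rw [map_add, map_add, map_pow, map_one, map_mul, map_natCast] at this
    exact this
  have h1 := ev_g hm (l := 3) (by norm_num) N hN (ι := {p // p ∈ M})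
    (fun p => ⟨PI p.1 v (algebraMap (𝓞 L) (𝓞 K) (z p)), hne p⟩) (by
    intro p q hpq x y hx hy hxy hw
    obtain ⟨hp1, hp2, hp3, hp4⟩ := hM p.1 p.2
    obtain ⟨hq1, hq2, hq3, hq4⟩ := hM q.1 q.2
    have hpq' : p.1 ≠ q.1 := fun h => hpq (Subtype.ext h)
    have h3 := sep3 hn hn4 hns h2 hω τ hτω hττ hfix hp1 hq1 hpq' hp3
      ⟨PI p.1 v (algebraMap (𝓞 L) (𝓞 K) (z p)), hne p⟩ ⟨PI q.1 v (algebraMap (𝓞 L) (𝓞 K) (z q)), hne q⟩
      (hprod p) (hprod q) (hnorm p) (hnorm q) (by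
        simp only
        rw [map_PI τ _ _ _ hTv]
        exact coprime_conj hp3 hv1) (coprime_pq hp1 hq1 hpq' _ _ _ _) hx hy hxy (by
        intro w
        have h5 := hw w
        push_cast at h5 ⊢
        exact h5)
    have hp0 : (0 : ℝ) ≤ (p.1 : ℝ) := Nat.cast_nonneg _
    have hq0 : (0 : ℝ) ≤ (q.1 : ℝ) := Nat.cast_nonneg _
    have h4 : ((p.1 : ℝ) * (q.1 : ℝ)) ^ (3 * (n * (2 * n - 1))) ≤ Y ^ (6 * n * (2 * n - 1)) := by
      calc ((p.1 : ℝ) * (q.1 : ℝ)) ^ (3 * (n * (2 * n - 1))) ≤ (Y * Y) ^ (3 * (n * (2 * n - 1))) := by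
            gcongr
            exact hp0.trans hp2
        _ = Y ^ (6 * n * (2 * n - 1)) := by
            rw [← sq, ← pow_mul]
            congr 1
            ring
    refine absurd h3 (not_le.2 (lt_of_le_of_lt ?_ hD))
    exact mul_le_mul_of_nonneg_left h4 (by positivity))
  rw [Fintype.card_coe] at h1
  exact h1

end Pool.Agent.K1H38.RT
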