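import Pool.Agent.K1H38.RT.Cas

/-! # The separation property for `L(√-3)` -/

set_option autoImplicit false
set_option linter.unusedSectionVars false
set_option linter.style.haveILetI false

namespace Pool.Agent.K1H38.RT

open NumberField Polynomial IntermediateField Pool.Agent.K1H79.QR
open scoped Classical nonZeroDivisors

variable {L K : Type} [Field L] [NumberField L] [Field K] [NumberField K] [Algebra L K]

theorem map_eq (τ : K ≃ₐ[L] K) {x y : 𝓞 K} {P Q : Ideal (𝓞 K)}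
    (h : Ideal.span {x} * P ^ 3 = Ideal.span {y} * Q ^ 3) :
    Ideal.span {TO τ x} * (Ideal.map (TO τ) P) ^ 3 = Ideal.span {TO τ y} * (Ideal.map (TO τ) Q) ^ 3 := by
  have h1 := congrArg (Ideal.map (TO τ)) h
  rw [Ideal.map_mul, Ideal.map_mul, Ideal.map_pow, Ideal.map_pow, Ideal.map_span, Ideal.map_span,
    Set.image_singleton, Set.image_singleton] at h1
  exact h1

theorem span_ne {z : 𝓞 K} (hz : z ≠ 0) : Ideal.span {z} ≠ 0 := by
  rw [Ne, Ideal.zero_eq_bot, Ideal.span_singleton_eq_bot]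
  exact hz

/-- the quotient is not in `L` -/
theorem a_not_L (τ : K ≃ₐ[L] K) {x y : 𝓞 K} (hx : x ≠ 0) (hy : y ≠ 0) {P Q : Ideal (𝓞 K)}
    (hP1 : P ≠ ⊤) (hc : IsCoprime P (Ideal.map (TO τ) P)) (hc' : IsCoprime P Q)
    (h : Ideal.span {x} * P ^ 3 = Ideal.span {y} * Q ^ 3) (z : L) :
    algebraMap L K z ≠ (y : K) / (x : K) := by
  intro hz
  have hxK : (x : K) ≠ 0 := by exact_mod_cast hx
  have hTx : TO τ x ≠ 0 := by
    rw [Ne, map_eq_zero_iff _ (TO τ).injective]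
    exact hx
  have hTy : TO τ y ≠ 0 := by
    rw [Ne, map_eq_zero_iff _ (TO τ).injective]
    exact hy
  have hTxK : τ (x : K) ≠ 0 := by
    rw [Ne, map_eq_zero_iff _ τ.injective]
    exact hxK
  have h1 : TO τ y * x = TO τ x * y := by
    refine RingOfIntegers.ext ?_
    have h2 := congrArg τ hz
    rw [τ.commutes, map_div₀, hz, div_eq_div_iff hxK hTxK] at h2
    rw [RingOfIntegers.coe_eq_algebraMap, RingOfIntegers.coe_eq_algebraMap, map_mul, map_mul]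
    change τ (y : K) * (x : K) = τ (x : K) * (y : K)
    rw [← h2, mul_comm]
  have h3 := map_eq τ h
  have h4 : Ideal.span {TO τ x} * P ^ 3 = Ideal.span {TO τ y} * Q ^ 3 := by
    apply mul_left_cancel₀ (span_ne hx)
    calc Ideal.span {x} * (Ideal.span {TO τ x} * P ^ 3)
        = Ideal.span {TO τ x} * (Ideal.span {x} * P ^ 3) := by ring
      _ = (Ideal.span {TO τ x} * Ideal.span {y}) * Q ^ 3 := by rw [h, mul_assoc]
      _ = Ideal.span {x} * (Ideal.span {TO τ y} * Q ^ 3) := by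
        rw [Ideal.span_singleton_mul_span_singleton, ← h1, ← Ideal.span_singleton_mul_span_singleton]
        ring
  have h5 : P ^ 3 * (Ideal.map (TO τ) Q) ^ 3 = Q ^ 3 * (Ideal.map (TO τ) P) ^ 3 := by
    apply mul_left_cancel₀ (mul_ne_zero (span_ne hTx) (span_ne hTy))
    calc Ideal.span {TO τ x} * Ideal.span {TO τ y} * (P ^ 3 * (Ideal.map (TO τ) Q) ^ 3)
        = (Ideal.span {TO τ x} * P ^ 3) * (Ideal.span {TO τ y} * (Ideal.map (TO τ) Q) ^ 3) := by ring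
      _ = (Ideal.span {TO τ y} * Q ^ 3) * (Ideal.span {TO τ x} * (Ideal.map (TO τ) P) ^ 3) := by rw [h4, h3]
      _ = _ := by ring
  have h6 : IsCoprime (P ^ 3) (Q ^ 3 * (Ideal.map (TO τ) P) ^ 3) :=
    IsCoprime.mul_right (hc'.pow) (hc.pow)
  have h7 : IsUnit (P ^ 3) := h6.isUnit_of_dvd' dvd_rfl ⟨_, h5.symm⟩
  have h8 : IsUnit P := by
    rw [isUnit_pow_iff (by norm_num)] at h7
    exact h7
  exact hP1 (Ideal.isUnit_iff.1 h8)

/-- the norm of the quotient is `(p/q)³` up to a unit -/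
theorem unit_eq (τ : K ≃ₐ[L] K) {x y : 𝓞 K} {P Q : Ideal (𝓞 K)} {p q : ℕ}
    (hP : P * Ideal.map (TO τ) P = Ideal.span {((p : ℕ) : 𝓞 K)})
    (hQ : Q * Ideal.map (TO τ) Q = Ideal.span {((q : ℕ) : 𝓞 K)})
    (h : Ideal.span {x} * P ^ 3 = Ideal.span {y} * Q ^ 3) :
    ∃ u : (𝓞 K)ˣ, x * TO τ x * ((p : ℕ) : 𝓞 K) ^ 3 * u = y * TO τ y * ((q : ℕ) : 𝓞 K) ^ 3 := by
  have h1 := map_eq τ h
  have h2 : Ideal.span {x * TO τ x * ((p : ℕ) : 𝓞 K) ^ 3} = Ideal.span {y * TO τ y * ((q : ℕ) : 𝓞 K) ^ 3} := by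
    rw [← Ideal.span_singleton_mul_span_singleton, ← Ideal.span_singleton_mul_span_singleton,
      ← Ideal.span_singleton_mul_span_singleton, ← Ideal.span_singleton_mul_span_singleton,
      ← Ideal.span_singleton_pow, ← Ideal.span_singleton_pow, ← hP, ← hQ]
    calc Ideal.span {x} * Ideal.span {TO τ x} * (P * Ideal.map (TO τ) P) ^ 3
        = (Ideal.span {x} * P ^ 3) * (Ideal.span {TO τ x} * (Ideal.map (TO τ) P) ^ 3) := by ring
      _ = (Ideal.span {y} * Q ^ 3) * (Ideal.span {TO τ y} * (Ideal.map (TO τ) Q) ^ 3) := by rw [h, h1]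
      _ = _ := by ring
  exact Ideal.span_singleton_eq_span_singleton.1 h2

theorem int_of_unit {ρ : ℚ} {u : 𝓞 K} (h : (u : K) = (ρ : K)) : ∃ k : ℤ, (k : ℚ) = ρ := by
  have h1 : IsIntegral ℤ (algebraMap ℚ K ρ) := by
    rw [eq_ratCast, ← h]
    exact RingOfIntegers.isIntegral_coe u
  have h2 : IsIntegral ℤ ρ := (isIntegral_algebraMap_iff (algebraMap ℚ K).injective).1 h1
  obtain ⟨k, hk⟩ := IsIntegrallyClosed.isIntegral_iff.1 h2
  exact ⟨k, by rw [← hk]; simp⟩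

/-- the rational case is impossible -/
theorem case3 {n : ℕ} (hn : Module.finrank ℚ L = n) (hn3 : 3 ≤ n)
    (hns : ∀ E : IntermediateField ℚ L, E = ⊥ ∨ E = ⊤) {ω : K} (hω : ω ^ 2 + ω + 1 = 0)
    (τ : K ≃ₐ[L] K) (hτω : τ ω = -1 - ω) (hττ : ∀ x, τ (τ x) = x)
    (hfix : ∀ x, τ x = x → ∃ z : L, algebraMap L K z = x)
    {p q : ℕ} (hp : p.Prime) (hq : q.Prime) (hpq : p ≠ q) (h3 : p % 3 = 2) {x y : 𝓞 K} (hx : x ≠ 0)
    (hy : y ≠ 0)
    (hu : ∃ u : (𝓞 K)ˣ, x * TO τ x * ((p : ℕ) : 𝓞 K) ^ 3 * u = y * TO τ y * ((q : ℕ) : 𝓞 K) ^ 3)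
    {r s : ℚ} (hr : (y : K) / (x : K) * τ ((y : K) / (x : K)) = (r : K))
    (hs : (y : K) / (x : K) + τ ((y : K) / (x : K)) = (s : K)) : False := by
  obtain ⟨a, ha⟩ : ∃ a : K, a = (y : K) / (x : K) := ⟨_, rfl⟩
  rw [← ha] at hr hs
  have hxK : (x : K) ≠ 0 := by exact_mod_cast hx
  have hyK : (y : K) ≠ 0 := by exact_mod_cast hy
  have hTxK : τ (x : K) ≠ 0 := by
    rw [Ne, map_eq_zero_iff _ τ.injective]
    exact hxK
  obtain ⟨e', he'⟩ := hfix ((a - τ a) * (2 * ω + 1)) (by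
    rw [map_mul, map_sub, hττ, map_add, map_mul, hτω, map_one, map_ofNat]
    ring)
  have h1 : e' ^ 2 + ((0 : ℚ) : L) * e' + ((3 * (s ^ 2 - 4 * r) : ℚ) : L) = 0 := by
    apply (algebraMap L K).injective
    rw [map_add, map_add, map_mul, map_pow, he', map_zero]
    have h2 : algebraMap L K ((3 * (s ^ 2 - 4 * r) : ℚ) : L) = 3 * ((s : K) ^ 2 - 4 * (r : K)) := by
      rw [map_ratCast]
      push_cast
      ring
    rw [h2, ← hs, ← hr, Rat.cast_zero, map_zero]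
    linear_combination 4 * (a - τ a) ^ 2 * hω
  obtain ⟨g, hg⟩ := rat_of_quad hn hn3 hns e' _ _ h1
  rw [hg, map_ratCast] at he'
  -- the coordinates
  have h4 : (((s / 2 - g / 6) ^ 2 - (s / 2 - g / 6) * (-(g / 3)) + (-(g / 3)) ^ 2 : ℚ) : K) = ((r : ℚ) : K) := by
    push_cast
    rw [← hr, ← hs, he']
    linear_combination (1 / 3 : K) * (a - τ a) ^ 2 * hω
  have h5 : (s / 2 - g / 6) ^ 2 - (s / 2 - g / 6) * (-(g / 3)) + (-(g / 3)) ^ 2 = r := by exact_mod_cast h4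
  -- the unit
  obtain ⟨u, hu⟩ := hu
  have hpK : ((p : ℕ) : K) ≠ 0 := by exact_mod_cast hp.ne_zero
  have hqK : ((q : ℕ) : K) ≠ 0 := by exact_mod_cast hq.ne_zero
  have hp0 : ((p : ℕ) : ℚ) ≠ 0 := by exact_mod_cast hp.ne_zero
  have hq0 : ((q : ℕ) : ℚ) ≠ 0 := by exact_mod_cast hq.ne_zero
  have hr0 : r ≠ 0 := by
    rintro rfl
    rw [Rat.cast_zero, mul_eq_zero] at hr
    have ha0 : a ≠ 0 := by rw [ha]; exact div_ne_zero hyK hxK
    rcases hr with h | h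
    · exact ha0 h
    · rw [map_eq_zero_iff _ τ.injective] at h
      exact ha0 h
  have h6 : (x : K) * τ (x : K) * ((p : ℕ) : K) ^ 3 * ((u : 𝓞 K) : K) = (y : K) * τ (y : K) * ((q : ℕ) : K) ^ 3 := by
    have h7 := congrArg (algebraMap (𝓞 K) K) hu
    simp only [map_mul, map_pow, map_natCast] at h7
    exact h7
  have h8 : ((u : 𝓞 K) : K) = ((r * q ^ 3 / p ^ 3 : ℚ) : K) := by
    push_cast
    rw [← hr, ha, map_div₀]
    field_simp
    linear_combination h6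
  have h9 : ((u⁻¹ : (𝓞 K)ˣ) : 𝓞 K) * ((u : (𝓞 K)ˣ) : 𝓞 K) = 1 := by
    rw [← Units.val_mul, inv_mul_cancel, Units.val_one]
  have h10 : (((u⁻¹ : (𝓞 K)ˣ) : 𝓞 K) : K) = (((r * q ^ 3 / p ^ 3)⁻¹ : ℚ) : K) := by
    have h11 := congrArg (algebraMap (𝓞 K) K) h9
    rw [map_mul, map_one] at h11
    change (((u⁻¹ : (𝓞 K)ˣ) : 𝓞 K) : K) * ((u : 𝓞 K) : K) = 1 at h11
    rw [h8] at h11
    rw [Rat.cast_inv]
    exact eq_inv_of_mul_eq_one_left h11
  obtain ⟨k, hk⟩ := int_of_unit h8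
  obtain ⟨k', hk'⟩ := int_of_unit h10
  have h12 : (k' : ℚ) * (k : ℚ) = 1 := by
    rw [hk, hk', inv_mul_cancel₀]
    positivity
  have h13 : k' * k = 1 := by exact_mod_cast h12
  have h14 : (0 : ℚ) < k := by
    rw [hk, ← h5]
    have h15 : 0 ≤ (s / 2 - g / 6) ^ 2 - (s / 2 - g / 6) * (-(g / 3)) + (-(g / 3)) ^ 2 := by
      nlinarith [sq_nonneg (s / 2 - g / 6 + g / 3), sq_nonneg (s / 2 - g / 6 - g / 3),
        sq_nonneg (s / 2 - g / 6), sq_nonneg (g / 3)]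
    have h16 : 0 < (s / 2 - g / 6) ^ 2 - (s / 2 - g / 6) * (-(g / 3)) + (-(g / 3)) ^ 2 :=
      lt_of_le_of_ne h15 (by rw [h5]; exact hr0.symm)
    have := hp.pos
    have := hq.pos
    positivity
  have h17 : k = 1 := by
    have h18 : 0 < k := by exact_mod_cast h14
    rcases Int.eq_one_or_neg_one_of_mul_eq_one' h13 with h | h
    · exact h.2
    · omega
  rw [h17] at hk
  refine nf_rat hp hq hpq h3 _ _ (?_ : ((s / 2 - g / 6) ^ 2 - (s / 2 - g / 6) * (-(g / 3)) + (-(g / 3)) ^ 2) * _ = _)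
  rw [h5]
  rw [eq_comm, Int.cast_one, div_eq_one_iff_eq (pow_ne_zero 3 hp0)] at hk
  exact hk

end Pool.Agent.K1H38.RT
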