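import Pool.Agent.K1H38.RT.Sep

/-! # The separation property for `L(√-3)`: conclusion -/

set_option autoImplicit false
set_option linter.unusedSectionVars false
set_option linter.style.haveILetI false

namespace Pool.Agent.K1H38.RT

open NumberField Polynomial IntermediateField Pool.Agent.K1H79.QR
open scoped Classical nonZeroDivisors

variable {L K : Type} [Field L] [NumberField L] [Field K] [NumberField K] [Algebra L K]

theorem alg0 (n : ℕ) (hn : 0 < n) {p q : ℝ} (hp : 0 < p) (hq : 0 < q) :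
    ∃ c : ℝ, c = (p ^ n / q ^ n) ^ ((3 : ℝ) / (2 * n : ℕ)) ∧ 0 ≤ c ∧ c ^ 2 = (p / q) ^ 3 := by
  refine ⟨_, rfl, by positivity, ?_⟩
  have hn0 : (0 : ℝ) < n := by exact_mod_cast hn
  have h1 : (0 : ℝ) < p ^ n / q ^ n := by positivity
  rw [← Real.rpow_natCast, ← Real.rpow_mul h1.le, ← div_pow, ← Real.rpow_natCast (p / q) n,
    ← Real.rpow_mul (div_pos hp hq).le, ← Real.rpow_natCast (p / q) 3]
  congr 1
  push_cast
  field_simp

theorem alg1 (n m : ℕ) {p q A : ℝ} (hq : 0 < q) :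
    (A * (p / q) ^ 3) ^ (n * m) * ((q ^ n) ^ 3) ^ (2 * m) = A ^ (n * m) * (p * q) ^ (3 * (n * m)) := by
  have h1 : ((q ^ n) ^ 3) ^ (2 * m) = ((q ^ 3) ^ 2) ^ (n * m) := by
    rw [← pow_mul, ← pow_mul, ← pow_mul, ← pow_mul]
    congr 1
    ring
  rw [h1, ← mul_pow, pow_mul (p * q) 3 (n * m), ← mul_pow]
  congr 1
  rw [div_pow, mul_pow]
  field_simp

theorem alg2 (n m : ℕ) {p q A c : ℝ} (hq : 0 < q) (hc : c ^ 2 = (p / q) ^ 3) :
    (A * c) ^ (2 * n * m) * ((q ^ n) ^ 3) ^ (2 * m) = A ^ (2 * n * m) * (p * q) ^ (3 * (n * m)) := by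
  have h2 : (A * c) ^ (2 * n * m) = (A ^ 2 * (p / q) ^ 3) ^ (n * m) := by
    rw [← hc, ← mul_pow, ← pow_mul]
    congr 1
    ring
  rw [h2, alg1 n m hq]
  congr 1
  rw [← pow_mul]
  congr 1
  ring

theorem div_le_w {x y : 𝓞 K} (hx : x ≠ 0) {B : ℝ} (w : InfinitePlace K) (h : w (y : K) ≤ B * w (x : K)) :
    w ((y : K) / (x : K)) ≤ B := by
  have hxK : (x : K) ≠ 0 := by exact_mod_cast hx
  rw [map_div₀, div_le_iff₀ (InfinitePlace.pos_iff.2 hxK)]
  exact h

/-- the separation property -/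
theorem sep3 {n : ℕ} (hn : Module.finrank ℚ L = n) (hn4 : 4 ≤ n)
    (hns : ∀ E : IntermediateField ℚ L, E = ⊥ ∨ E = ⊤) (h2 : Module.finrank L K = 2)
    {ω : K} (hω : ω ^ 2 + ω + 1 = 0)
    (τ : K ≃ₐ[L] K) (hτω : τ ω = -1 - ω) (hττ : ∀ x, τ (τ x) = x)
    (hfix : ∀ x, τ x = x → ∃ z : L, algebraMap L K z = x)
    {p q : ℕ} (hp : p.Prime) (hq : q.Prime) (hpq : p ≠ q) (h3 : p % 3 = 2) (P Q : (Ideal (𝓞 K))⁰)
    (hP : (P : Ideal (𝓞 K)) * Ideal.map (TO τ) (P : Ideal (𝓞 K)) = Ideal.span {((p : ℕ) : 𝓞 K)})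
    (hQ : (Q : Ideal (𝓞 K)) * Ideal.map (TO τ) (Q : Ideal (𝓞 K)) = Ideal.span {((q : ℕ) : 𝓞 K)})
    (hPn : Ideal.absNorm (P : Ideal (𝓞 K)) = p ^ n) (hQn : Ideal.absNorm (Q : Ideal (𝓞 K)) = q ^ n)
    (hc : IsCoprime (P : Ideal (𝓞 K)) (Ideal.map (TO τ) (P : Ideal (𝓞 K))))
    (hc' : IsCoprime (P : Ideal (𝓞 K)) (Q : Ideal (𝓞 K))) {x y : 𝓞 K} (hx : x ≠ 0) (hy : y ≠ 0)
    (h : Ideal.span {x} * (P : Ideal (𝓞 K)) ^ 3 = Ideal.span {y} * (Q : Ideal (𝓞 K)) ^ 3)
    (hw : ∀ w : InfinitePlace K, w (y : K) ≤ (150 : ℝ) ^ 3 *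
        (((Ideal.absNorm (P : Ideal (𝓞 K)) : ℝ) / Ideal.absNorm (Q : Ideal (𝓞 K))) ^ ((3 : ℝ) / (2 * n : ℕ))) *
          w (x : K)) :
    |(discr L : ℝ)| ^ 2 ≤ (2 * 150 ^ 6) ^ (2 * n * (2 * n - 1)) * ((p : ℝ) * q) ^ (3 * (n * (2 * n - 1))) := by
  have hpR : (0 : ℝ) < p := by exact_mod_cast hp.pos
  have hqR : (0 : ℝ) < q := by exact_mod_cast hq.pos
  have hxK : (x : K) ≠ 0 := by exact_mod_cast hx
  have hTx : TO τ x ≠ 0 := by
    rw [Ne, map_eq_zero_iff _ (TO τ).injective]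
    exact hx
  obtain ⟨c, hcdef, hc0, hc2⟩ := alg0 n (by omega) hpR hqR
  have hw1 : ∀ w : InfinitePlace K, w ((y : K) / (x : K)) ≤ 150 ^ 3 * c := by
    intro w
    refine div_le_w hx w ?_
    have h4 := hw w
    rw [hPn, hQn] at h4
    push_cast at h4 hcdef
    rw [hcdef]
    exact h4
  have hw2 : ∀ w : InfinitePlace K, w (τ ((y : K) / (x : K))) ≤ 150 ^ 3 * c := by
    intro w
    exact hw1 (w.comap (τ : K →+* K))
  have hu := unit_eq τ hP hQ h
  have hnotL := a_not_L τ hx hy (P := (P : Ideal (𝓞 K))) (by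
    intro h4
    rw [h4, Ideal.absNorm_top] at hPn
    have := Nat.one_lt_pow (by omega : n ≠ 0) hp.one_lt
    omega) hc hc' h
  obtain ⟨ν, hν⟩ := hfix ((y : K) / (x : K) * τ ((y : K) / (x : K))) (by
    rw [map_mul, hττ, mul_comm])
  obtain ⟨t, ht⟩ := hfix ((y : K) / (x : K) + τ ((y : K) / (x : K))) (by
    rw [map_add, hττ, add_comm])
  have hpq1 : (1 : ℝ) ≤ (p : ℝ) * q := by
    have h4 : (1 : ℝ) ≤ p := by exact_mod_cast hp.one_lt.le
    have h5 : (1 : ℝ) ≤ q := by exact_mod_cast hq.one_lt.le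
    nlinarith
  by_cases hνr : ∀ r : ℚ, ν ≠ (r : L)
  · -- the first case
    have h4 := case1 (K := K) hn ν (gen_rat hns hνr) (B := 150 ^ 6 * (p / q) ^ 3) (by
      intro w
      rw [hν, map_mul]
      calc w ((y : K) / (x : K)) * w (τ ((y : K) / (x : K))) ≤ (150 ^ 3 * c) * (150 ^ 3 * c) :=
            mul_le_mul (hw1 w) (hw2 w) (apply_nonneg _ _) (by positivity)
        _ = 150 ^ 6 * c ^ 2 := by ring
        _ = _ := by rw [hc2]) hq.ne_zero (by
      obtain ⟨u, hu⟩ := hu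
      refine ⟨((p : ℕ) : 𝓞 K) ^ 3 * u, ?_⟩
      have h6 : (x : K) * τ (x : K) * ((p : ℕ) : K) ^ 3 * ((u : 𝓞 K) : K) =
          (y : K) * τ (y : K) * ((q : ℕ) : K) ^ 3 := by
        have h7 := congrArg (algebraMap (𝓞 K) K) hu
        simp only [map_mul, map_pow, map_natCast] at h7
        exact h7
      have hTxK : τ (x : K) ≠ 0 := by
        rw [Ne, map_eq_zero_iff _ τ.injective]
        exact hxK
      have h8 : ((((p : ℕ) : 𝓞 K) ^ 3 * (u : 𝓞 K) : 𝓞 K) : K) = ((p : ℕ) : K) ^ 3 * ((u : 𝓞 K) : K) := by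
        change algebraMap (𝓞 K) K _ = _
        rw [map_mul, map_pow, map_natCast]
      rw [hν, map_div₀, h8]
      field_simp
      linear_combination -h6)
    rw [← mul_assoc, alg1 n (n - 1) hqR] at h4
    have h5 : 0 ≤ |(discr L : ℝ)| := abs_nonneg _
    calc |(discr L : ℝ)| ^ 2 ≤ ((2 * 150 ^ 6) ^ (n * (n - 1)) * ((p : ℝ) * q) ^ (3 * (n * (n - 1)))) ^ 2 := by
          gcongr
      _ = (2 * 150 ^ 6) ^ (2 * n * (n - 1)) * ((p : ℝ) * q) ^ (6 * (n * (n - 1))) := by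
          rw [mul_pow, ← pow_mul, ← pow_mul]
          congr 2 <;> ring
      _ ≤ _ := by
          have hnn : n * (n - 1) ≤ n * (2 * n - 1) := Nat.mul_le_mul_left _ (by omega)
          refine mul_le_mul (pow_le_pow_right₀ (by norm_num) ?_) (pow_le_pow_right₀ hpq1 ?_)
            (by positivity) (by positivity)
          · calc 2 * n * (n - 1) = 2 * (n * (n - 1)) := by ring
              _ ≤ 2 * (n * (2 * n - 1)) := by omega
              _ = _ := by ring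
          · have h6 : 2 * (n * (n - 1)) ≤ n * (2 * n - 1) := by
              calc 2 * (n * (n - 1)) = n * (2 * (n - 1)) := by ring
                _ ≤ _ := Nat.mul_le_mul_left _ (by omega)
            omega
  push Not at hνr
  obtain ⟨r, hr⟩ := hνr
  by_cases htr : ∀ s : ℚ, t ≠ (s : L)
  · -- the second case
    have hgen : ℚ⟮(y : K) / (x : K)⟯ = ⊤ := by
      refine gen_K h2 hnotL (gen_rat hns htr) ?_
      rw [ht]
      refine add_mem (mem_adjoin_simple_self ℚ _) ?_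
      have hyK : (y : K) ≠ 0 := by exact_mod_cast hy
      have h5 : τ ((y : K) / (x : K)) = (r : K) / ((y : K) / (x : K)) := by
        rw [eq_div_iff (div_ne_zero hyK hxK), mul_comm, ← hν, hr, map_ratCast]
      rw [h5]
      refine div_mem ?_ (mem_adjoin_simple_self ℚ _)
      have := (ℚ⟮(y : K) / (x : K)⟯).algebraMap_mem r
      rw [eq_ratCast] at this
      exact this
    have hm : Module.finrank ℚ K = 2 * n := by
      rw [← Module.finrank_mul_finrank ℚ L K, h2, mul_comm, hn]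
    have h4 := case2 hm hx P Q hgen h hw1
    rw [hQn] at h4
    push_cast at h4
    rw [← mul_assoc, alg2 n (2 * n - 1) hqR hc2] at h4
    refine (disc_lower (L := L) (K := K) h2).trans (h4.trans ?_)
    refine mul_le_mul_of_nonneg_right ?_ (by positivity)
    exact pow_le_pow_left₀ (by norm_num) (by norm_num) _
  push Not at htr
  obtain ⟨s, hs⟩ := htr
  exfalso
  refine case3 hn (by omega) hns hω τ hτω hττ hfix hp hq hpq h3 hx hy hu (r := r) (s := s) ?_ ?_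
  · rw [← hν, hr, map_ratCast]
  · rw [← ht, hs, map_ratCast]

end Pool.Agent.K1H38.RT
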