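import Pool.Agent.K1H38.RT.Disc

/-! # The automorphism of `L(√-3)` over `L`, and the ideals above an inert prime -/

set_option autoImplicit false
set_option linter.unusedSectionVars false
set_option linter.style.haveILetI false

namespace Pool.Agent.K1H38.RT

open NumberField Polynomial

variable {L K : Type} [Field L] [NumberField L] [Field K] [NumberField K] [Algebra L K]

theorem exists_tau (h2 : Module.finrank L K = 2) {ω : K} (hω : ω ^ 2 + ω + 1 = 0)
    (hL : ∀ z : L, z ^ 2 + z + 1 ≠ 0) :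
    ∃ τ : K ≃ₐ[L] K, τ ω = -1 - ω ∧ (∀ x, τ (τ x) = x) ∧ ∀ x, τ x = x → ∃ z : L, algebraMap L K z = x := by
  have hq : Algebra.IsQuadraticExtension L K := { finrank_eq_two' := h2 }
  have hG : IsGalois L K := inferInstance
  have hc : Nat.card (K ≃ₐ[L] K) = 2 := by
    rw [IsGalois.card_aut_eq_finrank, h2]
  have hnt : Nontrivial (K ≃ₐ[L] K) := by
    rw [← Finite.one_lt_card_iff_nontrivial, hc]
    norm_num
  obtain ⟨τ, hτ⟩ := exists_ne (1 : K ≃ₐ[L] K)
  have hall : ∀ g : K ≃ₐ[L] K, g = 1 ∨ g = τ := by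
    intro g
    classical
    by_contra hcon
    push Not at hcon
    have h3 : Fintype.card (K ≃ₐ[L] K) = 2 := by rw [← Nat.card_eq_fintype_card, hc]
    have h4 : ({1, τ, g} : Finset (K ≃ₐ[L] K)).card = 3 := by
      rw [Finset.card_eq_three]
      exact ⟨1, τ, g, fun h => hτ h.symm, fun h => hcon.1 h.symm, fun h => hcon.2 h.symm, rfl⟩
    have h5 := Finset.card_le_univ ({1, τ, g} : Finset (K ≃ₐ[L] K))
    omega
  have hfix : ∀ x, τ x = x → ∃ z : L, algebraMap L K z = x := by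
    intro x hx
    have h3 : x ∈ (⊥ : IntermediateField L K) := by
      rw [IsGalois.mem_bot_iff_fixed]
      intro g
      rcases hall g with h | h
      · rw [h]; rfl
      · rw [h]; exact hx
    exact IntermediateField.mem_bot.1 h3
  refine ⟨τ, ?_, ?_, hfix⟩
  · have h3 : (τ ω) ^ 2 + τ ω + 1 = 0 := by
      have := congrArg τ hω
      simpa using this
    have h4 : (τ ω - ω) * (τ ω - (-1 - ω)) = 0 := by linear_combination h3 - hω
    rcases mul_eq_zero.1 h4 with h5 | h5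
    · exfalso
      obtain ⟨z, hz⟩ := hfix ω (sub_eq_zero.1 h5)
      exact not_mem hω hL z hz
    · exact sub_eq_zero.1 h5
  · intro x
    have h3 : τ * τ = 1 := by
      rcases hall (τ * τ) with h | h
      · exact h
      · exfalso
        apply hτ
        exact mul_left_cancel (a := τ) (by rw [h, mul_one])
    have := congrArg (fun g : K ≃ₐ[L] K => g x) h3
    exact this

/-- existence of a cube root of unity modulo an inert prime -/
theorem exists_z {n : ℕ} (hn : Module.finrank ℚ L = n) (he : Even n) {p : ℕ} (hp : p.Prime)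
    (h3 : p % 3 = 2) (hI : (Ideal.span {((p : ℕ) : 𝓞 L)}).IsPrime) :
    ∃ z : 𝓞 L, z ^ 2 + z + 1 ∈ Ideal.span {((p : ℕ) : 𝓞 L)} := by
  obtain ⟨I, hIdef⟩ : ∃ I : Ideal (𝓞 L), I = Ideal.span {((p : ℕ) : 𝓞 L)} := ⟨_, rfl⟩
  rw [← hIdef] at hI ⊢
  have hp0 : ((p : ℕ) : 𝓞 L) ≠ 0 := by exact_mod_cast hp.ne_zero
  have hI0 : I ≠ ⊥ := by
    rw [hIdef, Ne, Ideal.span_singleton_eq_bot]
    exact hp0
  have hmax : I.IsMaximal := hI.isMaximal hI0
  have hcard : Nat.card (𝓞 L ⧸ I) = p ^ n := by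
    have h4 : Ideal.absNorm I = p ^ n := by
      rw [hIdef, Ideal.absNorm_span_singleton, show ((p : ℕ) : 𝓞 L) = algebraMap ℤ (𝓞 L) p by simp,
        Algebra.norm_algebraMap, RingOfIntegers.rank, hn, Int.natAbs_pow, Int.natAbs_natCast]
    rw [← h4]
    rfl
  letI := Ideal.Quotient.field I
  have hpos : 0 < p ^ n := pow_pos hp.pos n
  haveI : Finite (𝓞 L ⧸ I) := Nat.finite_of_card_ne_zero (by rw [hcard]; exact hpos.ne')
  haveI : Fintype (𝓞 L ⧸ I) := Fintype.ofFinite _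
  classical
  have hu : Fintype.card (𝓞 L ⧸ I)ˣ = p ^ n - 1 := by
    rw [Fintype.card_units, ← Nat.card_eq_fintype_card, hcard]
  have hdvd : 3 ∣ Fintype.card (𝓞 L ⧸ I)ˣ := by
    rw [hu]
    obtain ⟨k, hk⟩ := he
    have h5 : p ^ n % 3 = 1 := by
      rw [hk, ← two_mul, pow_mul, Nat.pow_mod, Nat.pow_mod p 2, h3]
      norm_num
    omega
  haveI : Fact (Nat.Prime 3) := ⟨Nat.prime_three⟩
  obtain ⟨g, hg⟩ := exists_prime_orderOf_dvd_card 3 hdvd
  have hg3 : g ^ 3 = 1 := by rw [← hg]; exact pow_orderOf_eq_one g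
  have hg1 : g ≠ 1 := by
    rintro rfl
    rw [orderOf_one] at hg
    omega
  have h6 : ((g : 𝓞 L ⧸ I) - 1) * ((g : 𝓞 L ⧸ I) ^ 2 + g + 1) = 0 := by
    have h7 : ((g ^ 3 : (𝓞 L ⧸ I)ˣ) : 𝓞 L ⧸ I) = 1 := by rw [hg3]; rfl
    rw [Units.val_pow_eq_pow_val] at h7
    linear_combination h7
  have h8 : (g : 𝓞 L ⧸ I) ^ 2 + g + 1 = 0 := by
    rcases mul_eq_zero.1 h6 with h9 | h9
    · exfalso
      apply hg1
      apply Units.ext
      rw [Units.val_one]
      exact sub_eq_zero.1 h9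
    · exact h9
  obtain ⟨z, hz⟩ := Ideal.Quotient.mk_surjective (g : 𝓞 L ⧸ I)
  refine ⟨z, ?_⟩
  rw [← Ideal.Quotient.eq_zero_iff_mem, map_add, map_add, map_pow, map_one, hz, h8]

end Pool.Agent.K1H38.RT
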